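import Pool.Agent.helper58.CRO.SpecH

/-!
# Row `cro:HMQ`
-/

open scoped Manifold ContDiff Topology ENNReal
open MeasureTheory Set

noncomputable section

namespace Pool.Agent.CRO

/-- `A ↦ ⟨A v, w⟩` -/
def HMQ_in {n : ℕ} (v w : En n) : (En n →L[ℝ] En n) →L[ℝ] ℝ :=
  (innerSL ℝ w).comp (ContinuousLinearMap.apply ℝ (En n) v)

theorem HMQ_in_apply {n : ℕ} (v w : En n) (A : En n →L[ℝ] En n) :
    HMQ_in v w A = inner ℝ (A v) w := by
  show inner ℝ w (A v) = inner ℝ (A v) w
  exact real_inner_comm _ _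

/-- `A ↦ tr (B A)` -/
def HMQ_tr {n : ℕ} (B : En n →L[ℝ] En n) : (En n →L[ℝ] En n) →L[ℝ] ℝ :=
  LinearMap.toContinuousLinearMap
    { toFun := fun A => LinearMap.trace ℝ (En n) ((B.comp A : En n →L[ℝ] En n) :
        En n →ₗ[ℝ] En n)
      map_add' := fun A A' => by
        rw [ContinuousLinearMap.comp_add, ContinuousLinearMap.toLinearMap_add, map_add]
      map_smul' := fun c A => by
        rw [ContinuousLinearMap.comp_smul, ContinuousLinearMap.toLinearMap_smul, map_smul,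
          RingHom.id_apply] }

theorem HMQ_tr_apply {n : ℕ} (B A : En n →L[ℝ] En n) :
    HMQ_tr B A = LinearMap.trace ℝ (En n) ((B.comp A : En n →L[ℝ] En n) : En n →ₗ[ℝ] En n) := rfl

theorem HMQ_pos {n : ℕ} {A : En n →L[ℝ] En n} (hA : PosDefOp A) :
    (LinearMap.toMatrix (EuclideanSpace.basisFun (Fin n) ℝ).toBasis
      (EuclideanSpace.basisFun (Fin n) ℝ).toBasis (A : En n →ₗ[ℝ] En n)).PosSemidef := by
  rw [LinearMap.posSemidef_toMatrix_iff]
  refine ⟨fun v w => hA.1 v w, fun v => ?_⟩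
  by_cases hv : v = 0
  · simp [hv]
  · have := hA.2 v hv
    simpa using this.le

theorem HMQ_inj {n : ℕ} {A : En n →L[ℝ] En n} (hA : PosDefOp A) (v : En n) (hv : A v = 0) :
    v = 0 := by
  by_contra h
  have h3 := hA.2 v h
  rw [hv, inner_zero_left] at h3
  exact lt_irrefl _ h3

theorem HMQ_det {n : ℕ} {A : En n →L[ℝ] En n} (hA : PosDefOp A) : 0 < A.det := by
  have hne : A.det ≠ 0 := by
    intro h
    have h1 : LinearMap.det (A : En n →ₗ[ℝ] En n) = 0 := h
    have h2 := LinearMap.bot_lt_ker_of_det_eq_zero h1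
    obtain ⟨v, hv, hv0⟩ := (Submodule.ne_bot_iff _).mp h2.ne'
    exact hv0 (HMQ_inj hA v hv)
  have hd : (LinearMap.toMatrix (EuclideanSpace.basisFun (Fin n) ℝ).toBasis
      (EuclideanSpace.basisFun (Fin n) ℝ).toBasis (A : En n →ₗ[ℝ] En n)).det = A.det :=
    LinearMap.det_toMatrix _ _
  exact lt_of_le_of_ne (hd ▸ (HMQ_pos hA).det_nonneg) (Ne.symm hne)

theorem HMQ_inv {n : ℕ} {S : En n →L[ℝ] En n} (hS : PosDefOp S) :
    ∃ Si : En n →L[ℝ] En n, ∀ v, Si (S v) = v := by
  have hinj : Function.Injective (S : En n →ₗ[ℝ] En n) := by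
    rw [injective_iff_map_eq_zero]
    intro v hv
    exact HMQ_inj hS v hv
  refine ⟨LinearMap.toContinuousLinearMap
    ((LinearEquiv.ofInjectiveEndo (S : En n →ₗ[ℝ] En n) hinj).symm : En n →ₗ[ℝ] En n), ?_⟩
  intro v
  have h := (LinearEquiv.ofInjectiveEndo (S : En n →ₗ[ℝ] En n) hinj).symm_apply_apply v
  simpa using h

theorem HMQ (h1 : HMA_stmt) : HMQ_stmt := by
  intro n hn s t Q q e f hst hQ hq he hpd
  have hn1 : (1 : ℝ) ≤ (n : ℝ) - 1 := by
    have : (2 : ℝ) ≤ n := by exact_mod_cast hn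
    linarith
  have hn0 : (0 : ℝ) < (n : ℝ) - 1 := by linarith
  have hint : IntervalIntegrable Q volume s t := hQ.intervalIntegrable_of_Icc hst.le
  have hqint : IntervalIntegrable q volume s t := hq.intervalIntegrable_of_Icc hst.le
  have hcomm : ∀ L : (En n →L[ℝ] En n) →L[ℝ] ℝ, ∫ r in s..t, L (Q r) = L (∫ r in s..t, Q r) :=
    fun L => L.intervalIntegral_comp_comm hint
  have hLint : ∀ L : (En n →L[ℝ] En n) →L[ℝ] ℝ,
      IntervalIntegrable (fun r => L (Q r)) volume s t := fun L =>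
    ContinuousOn.intervalIntegrable_of_Icc hst.le (L.continuous.comp_continuousOn hQ)
  have hS : PosDefOp (∫ r in s..t, Q r) := by
    constructor
    · intro v w
      rw [← HMQ_in_apply v w, ← hcomm, real_inner_comm, ← HMQ_in_apply w v, ← hcomm]
      apply intervalIntegral.integral_congr
      intro r hr
      rw [uIcc_of_le hst.le] at hr
      show HMQ_in v w (Q r) = HMQ_in w v (Q r)
      rw [HMQ_in_apply, HMQ_in_apply, (hpd r hr).1.1 v w, real_inner_comm]
    · intro v hv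
      rw [← HMQ_in_apply v v, ← hcomm]
      apply intervalIntegral.intervalIntegral_pos_of_pos_on (hLint _) _ hst
      intro r hr
      rw [HMQ_in_apply]
      exact (hpd r (Ioo_subset_Icc_self hr)).1.2 v hv
  have hσ : 0 < ∫ r in s..t, q r :=
    intervalIntegral.intervalIntegral_pos_of_pos_on hqint
      (fun r hr => (hpd r (Ioo_subset_Icc_self hr)).2.1) hst
  have hSe : (∫ r in s..t, Q r) e = (∫ r in s..t, q r) • f := by
    have h2 := (ContinuousLinearMap.apply ℝ (En n) e).intervalIntegral_comp_comm hint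
    rw [ContinuousLinearMap.apply_apply] at h2
    rw [← h2, ← intervalIntegral.integral_smul_const]
    apply intervalIntegral.integral_congr
    intro r hr
    rw [uIcc_of_le hst.le] at hr
    exact (hpd r hr).2.2
  obtain ⟨Si, hSi⟩ := HMQ_inv hS
  have hdet : 0 < (∫ r in s..t, Q r).det := HMQ_det hS
  generalize hSS : (∫ r in s..t, Q r) = S at hS hSe hSi hdet hcomm ⊢
  generalize hss : (∫ r in s..t, q r) = σ at hσ hSe ⊢
  have hD : 0 < S.det / σ := div_pos hdet hσ
  have hx : ∀ r ∈ Icc s t, 0 < (Q r).det / q r := fun r hr =>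
    div_pos (HMQ_det (hpd r hr).1) (hpd r hr).2.1
  have hxc : ContinuousOn (fun r => ((Q r).det / q r) ^ ((1 : ℝ) / ((n : ℝ) - 1))) (Icc s t) := by
    apply ContinuousOn.rpow_const
    · exact (ContinuousLinearMap.continuous_det.comp_continuousOn hQ).div hq
        (fun r hr => (hpd r hr).2.1.ne')
    · intro r _
      right
      positivity
  have hxi : IntervalIntegrable (fun r => ((Q r).det / q r) ^ ((1 : ℝ) / ((n : ℝ) - 1)))
      volume s t := hxc.intervalIntegrable_of_Icc hst.le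
  have hmono : ∫ r in s..t, (((n : ℝ) - 1) / (S.det / σ) ^ ((1 : ℝ) / ((n : ℝ) - 1))) *
      ((Q r).det / q r) ^ ((1 : ℝ) / ((n : ℝ) - 1)) ≤
      ∫ r in s..t, (HMQ_tr Si (Q r) - q r / σ) := by
    apply intervalIntegral.integral_mono_on hst.le (hxi.const_mul _)
      ((hLint _).sub (hqint.div_const _))
    intro r hr
    have h2 := h1 n hn (Q r) S Si e f (q r) σ (hpd r hr).1 hS hSi he (hpd r hr).2.1 hσ
      (hpd r hr).2.2 hSe
    rw [← HMQ_tr_apply, Real.div_rpow (hx r hr).le hD.le] at h2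
    refine le_trans (le_of_eq ?_) h2
    ring
  have htr : HMQ_tr Si S = n := by
    rw [HMQ_tr_apply]
    have h3 : ((Si.comp S : En n →L[ℝ] En n) : En n →ₗ[ℝ] En n) = LinearMap.id := by
      ext1 v
      exact hSi v
    rw [h3, LinearMap.trace_id]
    simp
  rw [intervalIntegral.integral_const_mul, intervalIntegral.integral_sub (hLint _)
    (hqint.div_const _), hcomm, htr, intervalIntegral.integral_div, hss, div_self hσ.ne'] at hmono
  have hDp : 0 < (S.det / σ) ^ ((1 : ℝ) / ((n : ℝ) - 1)) := Real.rpow_pos_of_pos hD _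
  have hle : ∫ r in s..t, ((Q r).det / q r) ^ ((1 : ℝ) / ((n : ℝ) - 1)) ≤
      (S.det / σ) ^ ((1 : ℝ) / ((n : ℝ) - 1)) := by
    rw [div_mul_eq_mul_div, div_le_iff₀ hDp] at hmono
    exact le_of_mul_le_mul_left hmono hn0
  have h0 : 0 ≤ ∫ r in s..t, ((Q r).det / q r) ^ ((1 : ℝ) / ((n : ℝ) - 1)) := by
    apply intervalIntegral.integral_nonneg hst.le
    intro r hr
    exact Real.rpow_nonneg (hx r hr).le _
  calc (∫ r in s..t, ((Q r).det / q r) ^ ((1 : ℝ) / ((n : ℝ) - 1))) ^ (n - 1) ≤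
      ((S.det / σ) ^ ((1 : ℝ) / ((n : ℝ) - 1))) ^ (n - 1) := pow_le_pow_left₀ h0 hle _
    _ = S.det / σ := by
      rw [← Real.rpow_natCast, ← Real.rpow_mul hD.le, Nat.cast_sub (by omega : 1 ≤ n),
        Nat.cast_one, one_div, inv_mul_cancel₀ hn0.ne', Real.rpow_one]

end Pool.Agent.CRO
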