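import Pool.Agent.helper58.CRO.SpecJ

/-!
# Row `cro:JON`
-/

open scoped Manifold ContDiff Topology ENNReal
open MeasureTheory Set

noncomputable section

namespace Pool.Agent.CRO

theorem JON_ang (n : ℕ) (hn : 2 ≤ n) (Y : ℝ) (hY : 0 < Y) : ∃ ψ : ℝ → ℝ, ψ 0 = 0 ∧
    (∀ s ∈ Icc (0 : ℝ) Y, ψ s ∈ Icc (0 : ℝ) (Real.pi / 2) ∧ Y * Real.sin (ψ s) ^ (n - 1) = s) ∧
    ∀ s, 0 ≤ s → ∀ s', s ≤ s' → ψ s ≤ ψ s' := by
  have hn1 : (1 : ℝ) ≤ (n : ℝ) - 1 := by
    have : (2 : ℝ) ≤ n := by exact_mod_cast hn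
    linarith
  have hn0 : (0 : ℝ) < (n : ℝ) - 1 := by linarith
  refine ⟨fun s => Real.arcsin ((s / Y) ^ ((1 : ℝ) / ((n : ℝ) - 1))), ?_, ?_, ?_⟩
  · simp only [zero_div]
    rw [Real.zero_rpow (by positivity), Real.arcsin_zero]
  · intro s hs
    have h0 : 0 ≤ s / Y := div_nonneg hs.1 hY.le
    have h1 : s / Y ≤ 1 := by
      rw [div_le_one hY]
      exact hs.2
    have hx0 : 0 ≤ (s / Y) ^ ((1 : ℝ) / ((n : ℝ) - 1)) := Real.rpow_nonneg h0 _
    have hx1 : (s / Y) ^ ((1 : ℝ) / ((n : ℝ) - 1)) ≤ 1 := Real.rpow_le_one h0 h1 (by positivity)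
    refine ⟨⟨Real.arcsin_nonneg.mpr hx0, Real.arcsin_le_pi_div_two _⟩, ?_⟩
    simp only
    rw [Real.sin_arcsin (by linarith) hx1, ← Real.rpow_natCast, ← Real.rpow_mul h0,
      Nat.cast_sub (by omega : 1 ≤ n), Nat.cast_one, one_div, inv_mul_cancel₀ hn0.ne',
      Real.rpow_one]
    field_simp
  · intro s hs s' hss'
    apply Real.monotone_arcsin
    apply Real.rpow_le_rpow (div_nonneg hs hY.le)
    · exact div_le_div_of_nonneg_right hss' hY.le
    · positivity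

theorem JON_FPcont (n : ℕ) : Continuous (FPc n) := by
  unfold FPc
  exact intervalIntegral.continuous_primitive
    (fun a b => (by fun_prop : Continuous fun t : ℝ => Real.sin t ^ (n - 2)).intervalIntegrable a b) 0

theorem JON_thr (h1 : JMF_stmt) (n : ℕ) (hn : 2 ≤ n) (κ v Y yk L φk : ℝ) (hκ : 0 < κ)
    (hv : 0 < v) (hY : 0 < Y) (hφ : φk ∈ Icc (0 : ℝ) (Real.pi / 2))
    (hy : Y * Real.sin φk ^ (n - 1) = yk)
    (hL : ∀ c ∈ Icc (0 : ℝ) 1, 2 * κ * v * (yk / (n * Y) - BTc n c) ≤ c * L) :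
    2 * κ * (((n : ℝ) - 1) / n) * v * FPc n φk ≤ L := by
  have hn0 : (0 : ℝ) < n := by
    have : 0 < n := by omega
    exact_mod_cast this
  have key : ∀ φ ∈ Icc (0 : ℝ) φk, 0 < Real.cos φ →
      2 * κ * (((n : ℝ) - 1) / n) * v * FPc n φ ≤ L := by
    intro φ hφ' hc
    have hφ2 : φ ∈ Icc (0 : ℝ) (Real.pi / 2) := ⟨hφ'.1, hφ'.2.trans hφ.2⟩
    have h2 := hL (Real.cos φ) ⟨hc.le, Real.cos_le_one φ⟩
    have h3 := h1 n hn φ hφ2
    have hsin : Real.sin φ ^ (n - 1) ≤ Real.sin φk ^ (n - 1) := by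
      apply pow_le_pow_left₀ (Real.sin_nonneg_of_nonneg_of_le_pi hφ2.1
        (by linarith [hφ2.2, Real.pi_pos]))
      apply Real.sin_le_sin_of_le_of_le_pi_div_two (by linarith [hφ'.1, Real.pi_pos]) hφ.2 hφ'.2
    have h4 : Real.sin φ ^ (n - 1) / n ≤ yk / (n * Y) := by
      rw [← hy]
      have : Y * Real.sin φk ^ (n - 1) / (n * Y) = Real.sin φk ^ (n - 1) / n := by
        field_simp
      rw [this]
      exact div_le_div_of_nonneg_right hsin hn0.le
    have h5 : 2 * κ * v * (Real.cos φ * (((n : ℝ) - 1) / n * FPc n φ)) ≤ Real.cos φ * L := by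
      rw [← h3]
      refine le_trans ?_ h2
      apply mul_le_mul_of_nonneg_left _ (by positivity)
      linarith
    have h6 : Real.cos φ * (2 * κ * (((n : ℝ) - 1) / n) * v * FPc n φ) ≤ Real.cos φ * L := by
      refine le_trans (le_of_eq ?_) h5
      ring
    exact le_of_mul_le_mul_left h6 hc
  rcases eq_or_lt_of_le hφ.2 with h | h
  · have hpi : (0 : ℝ) < Real.pi / 2 := by positivity
    have hcl : IsClosed {φ : ℝ | 2 * κ * (((n : ℝ) - 1) / n) * v * FPc n φ ≤ L} :=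
      isClosed_le (continuous_const.mul (JON_FPcont n)) continuous_const
    have hsub : Ico (0 : ℝ) (Real.pi / 2) ⊆
        {φ : ℝ | 2 * κ * (((n : ℝ) - 1) / n) * v * FPc n φ ≤ L} := by
      intro φ hφ'
      apply key φ ⟨hφ'.1, by rw [h]; exact hφ'.2.le⟩
      exact Real.cos_pos_of_mem_Ioo ⟨by linarith [hφ'.1], hφ'.2⟩
    have h2 := closure_minimal hsub hcl
    rw [closure_Ico hpi.ne] at h2
    exact h2 hφ
  · exact key φk ⟨hφ.1, le_rfl⟩ (Real.cos_pos_of_mem_Ioo ⟨by linarith [hφ.1, Real.pi_pos], h⟩)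

theorem JON_abel (A F : ℕ → ℝ) (W : ℝ) (hF : F 0 = 0) (j : ℕ) :
    (∑ k ∈ Finset.Ico 1 (j + 1), (A k - A (k + 1)) * F k) + A (j + 1) * W =
      (∑ k ∈ Finset.Ico 1 (j + 1), A k * (F k - F (k - 1))) + A (j + 1) * (W - F j) := by
  induction j with
  | zero => simp [hF]
  | succ j ih =>
    have e1 := Finset.sum_Ico_succ_top (by omega : 1 ≤ j + 1) (fun k => (A k - A (k + 1)) * F k)
    have e2 := Finset.sum_Ico_succ_top (by omega : 1 ≤ j + 1) (fun k => A k * (F k - F (k - 1)))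
    have e : j + 1 - 1 = j := by omega
    rw [e1, e2, e]
    linarith

theorem JON_int (n : ℕ) (Y : ℝ) (hY : 0 < Y) (g : ℝ → ℝ) (hg : Antitone g) (a b : ℝ)
    (ha : a ∈ Icc (0 : ℝ) (Real.pi / 2)) (hb : b ∈ Icc (0 : ℝ) (Real.pi / 2)) :
    IntervalIntegrable (fun φ => g (Y * Real.sin φ ^ (n - 1)) * Real.sin φ ^ (n - 2))
      volume a b := by
  apply IntervalIntegrable.mul_continuousOn
  · apply AntitoneOn.intervalIntegrable
    intro x hx y hy hxy
    apply hg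
    have hsub : uIcc a b ⊆ Icc (0 : ℝ) (Real.pi / 2) := uIcc_subset_Icc ha hb
    have hx' := hsub hx
    have hy' := hsub hy
    apply mul_le_mul_of_nonneg_left _ hY.le
    apply pow_le_pow_left₀ (Real.sin_nonneg_of_nonneg_of_le_pi hx'.1
      (by linarith [hx'.2, Real.pi_pos]))
    exact Real.sin_le_sin_of_le_of_le_pi_div_two (by linarith [hx'.1, Real.pi_pos]) hy'.2 hxy
  · exact (Real.continuous_sin.pow _).continuousOn

theorem JON (h1 : JMF_stmt) (h2 : JCB_stmt) (h3 : JNU_stmt) : JON_stmt := by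
  intro n hn j v Y y Lk A g hj hv hY hy0 hymono hg hg0 hthr hA hAv hAj0 hAj
  obtain ⟨_, hcW, hkn, hκ, _, hkap, _⟩ := h3 n hn
  have hn0 : (0 : ℝ) < n := by
    have : 0 < n := by omega
    exact_mod_cast this
  have hn1 : (1 : ℝ) ≤ (n : ℝ) - 1 := by
    have : (2 : ℝ) ≤ n := by exact_mod_cast hn
    linarith
  obtain ⟨J, rfl⟩ : ∃ J, j = J + 1 := ⟨j - 1, by omega⟩
  have eJ : J + 1 - 1 = J := by omega
  rw [eJ] at hAj ⊢
  obtain ⟨ψ, hψ0, hψ, hψm⟩ := JON_ang n hn Y hY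
  have hynn : ∀ k, k < J + 1 → 0 ≤ y k := by
    intro k
    induction k with
    | zero => intro _; rw [hy0]
    | succ k ih =>
      intro hk
      exact (ih (by omega)).trans (hymono k hk)
  have hBT0 : BTc n 0 = 1 / n := by
    unfold BTc
    simp
  have hyY : ∀ k, k < J + 1 → y k ≤ Y := by
    intro k hk
    rcases Nat.eq_zero_or_pos k with rfl | hk0
    · rw [hy0]
      exact hY.le
    · have h4 := hthr k hk0 hk 0 ⟨le_rfl, zero_le_one⟩
      rw [zero_mul, hBT0] at h4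
      by_contra hc
      push Not at hc
      have h5 : 1 / (n : ℝ) < y k / (n * Y) := by
        rw [div_lt_div_iff₀ hn0 (by positivity)]
        nlinarith
      have h6 : 0 < 2 * kap (n - 1) * v * (y k / (n * Y) - 1 / n) := by
        apply mul_pos (by positivity)
        linarith
      linarith
  have hym : ∀ k, k < J + 1 → y k ∈ Icc (0 : ℝ) Y := fun k hk => ⟨hynn k hk, hyY k hk⟩
  have hF0 : FPc n (ψ (y 0)) = 0 := by
    rw [hy0, hψ0]
    unfold FPc
    simp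
  have hFnn : ∀ φ ∈ Icc (0 : ℝ) (Real.pi / 2), 0 ≤ FPc n φ := by
    intro φ hφ
    unfold FPc
    apply intervalIntegral.integral_nonneg hφ.1
    intro t ht
    apply pow_nonneg
    exact Real.sin_nonneg_of_nonneg_of_le_pi ht.1 (by linarith [ht.2, hφ.2, Real.pi_pos])
  -- (1)
  have hs1 : ∑ k ∈ Finset.Ico 1 (J + 1), (A k - A (k + 1)) *
      (2 * kap (n - 1) * (((n : ℝ) - 1) / n) * v * FPc n (ψ (y k))) ≤
      ∑ k ∈ Finset.Ico 1 (J + 1), (A k - A (k + 1)) * Lk k := by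
    apply Finset.sum_le_sum
    intro k hk
    have hk' := Finset.mem_Ico.mp hk
    apply mul_le_mul_of_nonneg_left _ (by linarith [hA k hk'.1 hk'.2])
    obtain ⟨hm1, hm2⟩ := hψ (y k) (hym k hk'.2)
    exact JON_thr h1 n hn (kap (n - 1)) v Y (y k) (Lk k) _ hκ hv hY hm1 hm2
      (hthr k hk'.1 hk'.2)
  -- (3)
  have hs3 : ∀ m, m < J + 1 →
      ∫ φ in (0 : ℝ)..(ψ (y m)), g (Y * Real.sin φ ^ (n - 1)) * Real.sin φ ^ (n - 2) ≤
      ∑ k ∈ Finset.Ico 1 (m + 1), A k * (FPc n (ψ (y k)) - FPc n (ψ (y (k - 1)))) := by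
    intro m
    induction m with
    | zero =>
      intro _
      rw [hy0, hψ0]
      simp
    | succ m ih =>
      intro hm
      have ih' := ih (by omega)
      rw [Finset.sum_Ico_succ_top (by omega)]
      have e : m + 1 - 1 = m := by omega
      rw [e]
      obtain ⟨ha1, ha2⟩ := hψ (y m) (hym m (by omega))
      obtain ⟨hb1, hb2⟩ := hψ (y (m + 1)) (hym (m + 1) hm)
      have hle : ψ (y m) ≤ ψ (y (m + 1)) := hψm _ (hynn m (by omega)) _ (hymono m hm)
      have hAm := hAv (m + 1) (by omega) hm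
      rw [e] at hAm
      have h4 := h2 n hn Y (ψ (y m)) (ψ (y (m + 1))) (A (m + 1)) g hY ha1.1 hle hb1.2 hg hg0
        (by rw [ha2, hb2]; exact hAm)
      have h5 := intervalIntegral.integral_add_adjacent_intervals
        (JON_int n Y hY g hg 0 (ψ (y m)) ⟨le_rfl, by positivity⟩ ha1)
        (JON_int n Y hY g hg (ψ (y m)) (ψ (y (m + 1))) ha1 hb1)
      rw [← h5]
      linarith
  have hJ := hs3 J (by omega)
  obtain ⟨ha1, ha2⟩ := hψ (y J) (hym J (by omega))
  have hpi : Real.pi / 2 ∈ Icc (0 : ℝ) (Real.pi / 2) := ⟨by positivity, le_rfl⟩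
  have hz : (0 : ℝ) ∈ Icc (0 : ℝ) (Real.pi / 2) := ⟨le_rfl, by positivity⟩
  have hlast : ∫ φ in (ψ (y J))..(Real.pi / 2), g (Y * Real.sin φ ^ (n - 1)) *
      Real.sin φ ^ (n - 2) ≤ g (y J) * (cW n - FPc n (ψ (y J))) := by
    have hsi : Continuous fun t : ℝ => Real.sin t ^ (n - 2) := by fun_prop
    have h6 : cW n - FPc n (ψ (y J)) = ∫ t in (ψ (y J))..(Real.pi / 2), Real.sin t ^ (n - 2) := by
      unfold cW FPc
      rw [← intervalIntegral.integral_add_adjacent_intervals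
        (hsi.intervalIntegrable 0 (ψ (y J))) (hsi.intervalIntegrable (ψ (y J)) (Real.pi / 2))]
      ring
    rw [h6, ← intervalIntegral.integral_const_mul]
    apply intervalIntegral.integral_mono_on ha1.2
      (JON_int n Y hY g hg _ _ ha1 hpi) ((hsi.intervalIntegrable _ _).const_mul _)
    intro φ hφ
    have hφ0 : 0 ≤ φ := ha1.1.trans hφ.1
    have hs0 : 0 ≤ Real.sin φ := Real.sin_nonneg_of_nonneg_of_le_pi hφ0
      (by linarith [hφ.2, Real.pi_pos])
    apply mul_le_mul_of_nonneg_right _ (pow_nonneg hs0 _)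
    apply hg
    rw [← ha2]
    apply mul_le_mul_of_nonneg_left _ hY.le
    apply pow_le_pow_left₀ (Real.sin_nonneg_of_nonneg_of_le_pi ha1.1
      (by linarith [ha1.2, Real.pi_pos]))
    exact Real.sin_le_sin_of_le_of_le_pi_div_two (by linarith [ha1.1, Real.pi_pos]) hφ.2 hφ.1
  have htot := intervalIntegral.integral_add_adjacent_intervals
    (JON_int n Y hY g hg 0 (ψ (y J)) hz ha1) (JON_int n Y hY g hg (ψ (y J)) (Real.pi / 2) ha1 hpi)
  have hab := JON_abel A (fun k => FPc n (ψ (y k))) (cW n) hF0 J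
  have hFJ := hFnn _ ha1
  have hprod : 0 ≤ (g (y J) - A (J + 1)) * FPc n (ψ (y J)) :=
    mul_nonneg (by linarith) hFJ
  have hmain : (∫ φ in (0 : ℝ)..(Real.pi / 2), g (Y * Real.sin φ ^ (n - 1)) *
      Real.sin φ ^ (n - 2)) - cW n * (g (y J) - A (J + 1)) ≤
      (∑ k ∈ Finset.Ico 1 (J + 1), (A k - A (k + 1)) * FPc n (ψ (y k))) + A (J + 1) * cW n := by
    rw [hab, ← htot]
    have e1 : g (y J) * (cW n - FPc n (ψ (y J))) - cW n * (g (y J) - A (J + 1)) =
      A (J + 1) * (cW n - FPc n (ψ (y J))) - (g (y J) - A (J + 1)) * FPc n (ψ (y J)) := by ring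
    linarith
  have hK : 0 ≤ 2 * kap (n - 1) * (((n : ℝ) - 1) / n) * v := by
    have : 0 ≤ ((n : ℝ) - 1) / n := div_nonneg (by linarith) hn0.le
    positivity
  refine (mul_le_mul_of_nonneg_left hmain hK).trans ?_
  have e2 : 2 * kap (n - 1) * (((n : ℝ) - 1) / n) * v *
      ((∑ k ∈ Finset.Ico 1 (J + 1), (A k - A (k + 1)) * FPc n (ψ (y k))) + A (J + 1) * cW n) =
      (∑ k ∈ Finset.Ico 1 (J + 1), (A k - A (k + 1)) *
        (2 * kap (n - 1) * (((n : ℝ) - 1) / n) * v * FPc n (ψ (y k)))) +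
      A (J + 1) * (kap n * v) := by
    rw [mul_add, Finset.mul_sum, hkap]
    congr 1
    · apply Finset.sum_congr rfl
      intro k _
      ring
    · ring
  rw [e2]
  linarith

end Pool.Agent.CRO
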