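import Pool.Agent.helper58.CRO.SpecD

/-!
# Row cro:VOA: the volume of a ball in a normal chart
-/

set_option autoImplicit false

open scoped Manifold ContDiff Topology ENNReal
open MeasureTheory Set Bundle

noncomputable section

namespace Pool.Agent.CRO

universe u

theorem VOA_det {n : ℕ} (A : Matrix (Fin n) (Fin n) ℝ) :
    (Matrix.toEuclideanCLM (𝕜 := ℝ) A : En n →L[ℝ] En n).det = A.det := by
  unfold ContinuousLinearMap.det
  rw [Matrix.coe_toEuclideanCLM_eq_toEuclideanLin, Matrix.toEuclideanLin_eq_toLin_orthonormal,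
    LinearMap.det_toLin]

theorem VOA (h1 : COE_stmt.{u}) (h2 : GOP_stmt.{u}) (h3 : BAL_stmt.{u}) : VOA_stmt.{u} := by
  intro n M _ _ _ g χ x r 𝒢 hr hN hR ρ hρ hρr
  have hball : Metric.ball (0 : En n) ρ ⊆ χ.target := by
    rw [hN.2.1]
    exact Metric.ball_subset_ball hρr.le
  have himg : χ '' (χ.symm '' Metric.ball (0 : En n) ρ) = Metric.ball (0 : En n) ρ := by
    ext y
    constructor
    · rintro ⟨z, ⟨w, hw, rfl⟩, rfl⟩
      rw [χ.right_inv (hball hw)]
      exact hw
    · intro hy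
      exact ⟨χ.symm y, ⟨y, hy, rfl⟩, χ.right_inv (hball hy)⟩
  have hle : (∫⁻ y in Metric.ball (0 : En n) ρ, ENNReal.ofReal (dens g χ y)) ≤
      gvol g (gball g x ρ) := by
    have hc : (∀ _i : Fin 1, χ ∈ IsManifold.maximalAtlas (𝓡 n) ∞ M) ∧
        (∀ _i : Fin 1, MeasurableSet (χ '' (χ.symm '' Metric.ball (0 : En n) ρ))) ∧
        (∀ _i : Fin 1, χ.symm '' Metric.ball (0 : En n) ρ ⊆ gball g x ρ ∩ χ.source) ∧
        Pairwise (Function.onFun Disjoint
          (fun _i : Fin 1 => χ.symm '' Metric.ball (0 : En n) ρ)) := by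
      refine ⟨fun _ => hN.1, fun _ => ?_, fun _ => ?_, fun i j hij => ?_⟩
      · rw [himg]
        exact Metric.isOpen_ball.measurableSet
      · rintro _ ⟨y, hy, rfl⟩
        refine ⟨h3 n M g χ x r hr hN ρ y (mem_ball_zero_iff.1 hy) hρr.le, ?_⟩
        exact χ.map_target (hball hy)
      · exact absurd (Subsingleton.elim i j) hij
    have h4 : ∑ _i : Fin 1, ∫⁻ y in χ '' (χ.symm '' Metric.ball (0 : En n) ρ),
        ENNReal.ofReal (dens g χ y) ≤ gvol g (gball g x ρ) := by
      unfold gvol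
      exact le_iSup_of_le 1 (le_iSup_of_le (fun _ => χ)
        (le_iSup_of_le (fun _ => χ.symm '' Metric.ball (0 : En n) ρ)
          (le_iSup_of_le hc le_rfl)))
    rw [Fin.sum_univ_one, himg] at h4
    exact h4
  refine le_trans ?_ hle
  have heq : VV 𝒢 ρ = ∫ y in Metric.ball (0 : En n) ρ, dens g χ y := by
    unfold VV
    apply setIntegral_congr_fun Metric.isOpen_ball.measurableSet
    intro y hy
    have hy' : ‖y‖ < r := (mem_ball_zero_iff.1 hy).trans hρr
    show (Real.sqrt (𝒢.G y).det)⁻¹ = Real.sqrt (gmat g χ y).det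
    rw [hR y hy', VOA_det, Matrix.det_nonsing_inv, Ring.inverse_eq_inv', Real.sqrt_inv, inv_inv]
  rw [heq]
  by_cases hint : Integrable (fun y => dens g χ y)
      ((volume : Measure (En n)).restrict (Metric.ball (0 : En n) ρ))
  · rw [ofReal_integral_eq_lintegral_ofReal hint]
    exact Filter.Eventually.of_forall fun y => Real.sqrt_nonneg _
  · rw [integral_undef hint, ENNReal.ofReal_zero]
    exact zero_le

end Pool.Agent.CRO
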